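import Mathlib

/-!
# Maximal metrics, affine isometric actions and amenability of topological groups

Definitions used in the hand-in on problem MP_5f76cf_al.
-/

set_option autoImplicit false

namespace Pool.Agent.H34.HilbertGrowth


/-- `d` is a metric on the topological group `G` which induces the topology of `G` and is
left-invariant. -/
structure IsCompatibleLeftInvariantMetric (G : Type) [Group G] [TopologicalSpace G]
    (d : G → G → ℝ) : Prop where
  dist_self : ∀ g, d g g = 0
  eq_of_dist_eq_zero : ∀ g h, d g h = 0 → g = h
  dist_comm : ∀ g h, d g h = d h g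
  dist_triangle : ∀ g h k, d g k ≤ d g h + d h k
  isOpen_iff : ∀ U : Set G, IsOpen U ↔ ∀ g ∈ U, ∃ ε > 0, ∀ h, d g h < ε → h ∈ U
  left_invariant : ∀ k g h, d (k * g) (k * h) = d g h

/-- A maximal compatible left-invariant metric. -/
def IsMaximalMetric (G : Type) [Group G] [TopologicalSpace G] (d : G → G → ℝ) : Prop :=
  IsCompatibleLeftInvariantMetric G d ∧
    ∀ d' : G → G → ℝ, IsCompatibleLeftInvariantMetric G d' →
      ∃ K : ℝ, ∀ g h, d' g h ≤ K * d g h + K

/-- A continuous affine isometric action `g • ξ = lin g ξ + coc g` of `G` on a real Hilbert space. -/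
structure AffineIsometricAction (G : Type) [Group G] [TopologicalSpace G]
    (H : Type) [NormedAddCommGroup H] [InnerProductSpace ℝ H] where
  lin : G →* (H ≃ₗᵢ[ℝ] H)
  coc : G → H
  coc_mul : ∀ g h, coc (g * h) = lin g (coc h) + coc g
  continuous_action : Continuous fun p : G × H => lin p.1 p.2 + coc p.1

/-- Every continuous action on a nonempty compact Hausdorff space has an invariant Borel
probability measure. -/
def IsAmenable (G : Type) [Group G] [TopologicalSpace G] : Prop :=
  ∀ (X : Type) [TopologicalSpace X] [CompactSpace X] [T2Space X] [Nonempty X]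
    [MeasurableSpace X] [BorelSpace X] [MulAction G X] [ContinuousSMul G X],
    ∃ μ : MeasureTheory.Measure X, MeasureTheory.IsProbabilityMeasure μ ∧
      ∀ g : G, μ.map (fun x => g • x) = μ



end Pool.Agent.H34.HilbertGrowth
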