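import Pool.Agent.H34.HilbertGrowthDefs

/-!
# A non-amenable Polish group with an affine isometric action on `ℓ²` of linear growth

The group is a group of isometries of the Hilbert space `ℓ²(ℕ × F)` (`F` a group) with the topology
of pointwise convergence: it is the semidirect product of `ℓ²(ℕ × F)` with the group `WP F` of all
permutations of `ℕ × F` which commute with the right translations by `F`.

* `length_bounded`: `WP F` is coarsely bounded;
* `isMaximal_dist`: the metric `max (‖ξ - η‖) (δ(k,l))` is maximal;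
* `not_isAmenable`: the group is not amenable if `F` acts on a compact space without invariant
  probability measure;
* `no_invariant`: a free group acts on the Cantor space without invariant probability measure.
-/

set_option autoImplicit false
set_option linter.all false
open Topology Filter

noncomputable section

namespace Pool.Agent.H34.HilbertGrowth

/-- The discrete metric. -/
@[reducible] def discMetric (E : Type) : MetricSpace E := by
  classical
  exact
  { dist := fun x y => if x = y then 0 else 1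
    dist_self := fun x => by simp
    dist_comm := fun x y => by simp [eq_comm]
    dist_triangle := fun x y z => by
      by_cases h1 : x = y
      · subst h1; simp
      · by_cases h2 : x = z
        · subst h2; simp [h1]; split_ifs <;> norm_num
        · simp only [h1, h2, if_false]
          split_ifs <;> norm_num
    eq_of_dist_eq_zero := fun {x y} h => by
      by_contra hne
      simp [hne] at h }

open scoped Classical in
theorem discMetric_dist (E : Type) (x y : E) : (discMetric E).dist x y = if x = y then 0 else 1 := by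
  unfold discMetric
  congr

theorem discMetric_discrete (E : Type) : @DiscreteTopology E (discMetric E).toUniformSpace.toTopologicalSpace := by
  letI := discMetric E
  refine DiscreteTopology.of_forall_le_dist (r := 1) one_pos ?_
  intro x y hxy
  rw [discMetric_dist]
  simp [hxy]

section rep
variable {E : Type}

theorem memℓp_comp (σ : Equiv.Perm E) (ξ : lp (fun _ : E => ℝ) 2) :
    Memℓp (fun e => ξ (σ e)) 2 := by
  have h : (0:ℝ) < (2 : ENNReal).toReal := by norm_num
  rw [memℓp_gen_iff h]
  have := (memℓp_gen_iff h).1 (lp.memℓp ξ)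
  exact (σ.summable_iff (f := fun i => ‖ξ i‖ ^ (2 : ENNReal).toReal)).2 this

/-- Permutation of coordinates on `ℓ²(E)`. -/
def permFun (σ : Equiv.Perm E) (ξ : lp (fun _ : E => ℝ) 2) : lp (fun _ : E => ℝ) 2 :=
  ⟨fun e => ξ (σ.symm e), memℓp_comp σ.symm ξ⟩

theorem permFun_apply (σ : Equiv.Perm E) (ξ : lp (fun _ : E => ℝ) 2) (e : E) :
    permFun σ ξ e = ξ (σ.symm e) := rfl

theorem norm_permFun (σ : Equiv.Perm E) (ξ : lp (fun _ : E => ℝ) 2) : ‖permFun σ ξ‖ = ‖ξ‖ := by
  have h : (0:ℝ) < (2 : ENNReal).toReal := by norm_num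
  rw [lp.norm_eq_tsum_rpow h, lp.norm_eq_tsum_rpow h]
  congr 1
  exact σ.symm.tsum_eq (fun i => ‖ξ i‖ ^ (2 : ENNReal).toReal)

/-- The orthogonal representation of the symmetric group on `ℓ²(E)`. -/
def permRep : Equiv.Perm E →* (lp (fun _ : E => ℝ) 2 ≃ₗᵢ[ℝ] lp (fun _ : E => ℝ) 2) where
  toFun σ :=
    { toFun := permFun σ
      invFun := permFun σ⁻¹
      map_add' := fun x y => by ext e; rfl
      map_smul' := fun c x => by ext e; rfl
      left_inv := fun x => by
        ext e
        change x (σ.symm (σ e)) = x e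
        rw [Equiv.symm_apply_apply]
      right_inv := fun x => by
        ext e
        change x (σ (σ.symm e)) = x e
        rw [Equiv.apply_symm_apply]
      norm_map' := norm_permFun σ }
  map_one' := by ext; rfl
  map_mul' σ τ := by ext; rfl

theorem permRep_apply (σ : Equiv.Perm E) (ξ : lp (fun _ : E => ℝ) 2) (e : E) :
    permRep σ ξ e = ξ (σ⁻¹ e) := rfl

theorem permRep_single [DecidableEq E] (σ : Equiv.Perm E) (e : E) (x : ℝ) :
    permRep σ (lp.single 2 e x) = lp.single 2 (σ e) x := by
  ext f
  rw [permRep_apply]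
  by_cases h : f = σ e
  · subst h
    simp
  · have : σ⁻¹ f ≠ e := by
      intro h2
      apply h
      rw [← h2]; simp
    rw [lp.single_apply_ne _ _ _ this, lp.single_apply_ne _ _ _ h]

instance [Countable E] : TopologicalSpace.SeparableSpace (lp (fun _ : E => ℝ) 2) := by
  classical
  have h1 : TopologicalSpace.IsSeparable (Set.range (fun e : E => (lp.single 2 e (1:ℝ) : lp (fun _ : E => ℝ) 2))) :=
    (Set.countable_range _).isSeparable
  have h2 := (h1.span (R := ℝ)).closure
  have h3 : closure (Submodule.span ℝ (Set.range (fun e : E => (lp.single 2 e (1:ℝ) : lp (fun _ : E => ℝ) 2))) : Set (lp (fun _ : E => ℝ) 2)) = Set.univ := by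
    rw [Set.eq_univ_iff_forall]
    intro ξ
    have h4 := lp.hasSum_single (p := 2) (by norm_num) ξ
    refine mem_closure_of_tendsto h4 (Filter.Eventually.of_forall fun s => ?_)
    refine Submodule.sum_mem _ fun e _ => ?_
    have : (lp.single 2 e (ξ e) : lp (fun _ : E => ℝ) 2) = (ξ e) • lp.single 2 e (1:ℝ) := by
      rw [← lp.single_smul]; simp
    rw [this]
    exact Submodule.smul_mem _ _ (Submodule.subset_span ⟨e, rfl⟩)
  rw [h3] at h2
  exact TopologicalSpace.isSeparable_univ_iff.1 h2

end rep

section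
variable (F : Type) [Group F]
/-- The permutations of `ℕ × F` commuting with all right translations by elements of `F`. -/
def WP : Subgroup (Equiv.Perm (ℕ × F)) where
  carrier := {σ | ∀ (e : ℕ × F) (y : F), σ (e.1, e.2 * y) = ((σ e).1, (σ e).2 * y)}
  mul_mem' := by
    intro a b ha hb e y
    simp only [Set.mem_ofPred_eq] at ha hb
    rw [Equiv.Perm.mul_apply, hb, ha, Equiv.Perm.mul_apply]
  one_mem' := by
    intro e y
    rfl
  inv_mem' := by
    intro a ha e y
    simp only [Set.mem_ofPred_eq] at ha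
    rw [Equiv.Perm.inv_eq_iff_eq, ha]
    simp
end

section
variable {F : Type} [Group F]

theorem WP_apply (σ : WP F) (e : ℕ × F) (y : F) :
    (σ : Equiv.Perm (ℕ × F)) (e.1, e.2 * y) =
      (((σ : Equiv.Perm (ℕ × F)) e).1, ((σ : Equiv.Perm (ℕ × F)) e).2 * y) := σ.2 e y

/-- coercion to functions -/
def toFun (σ : WP F) : ℕ × F → ℕ × F := fun e => (σ : Equiv.Perm (ℕ × F)) e

theorem toFun_inj : Function.Injective (toFun (F := F)) := by
  intro σ τ h
  apply Subtype.ext
  apply Equiv.ext
  intro e
  exact congrFun h e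

theorem toFun_mul (a b : WP F) (e : ℕ × F) : toFun (a * b) e = toFun a (toFun b e) := rfl
theorem toFun_one (e : ℕ × F) : toFun (1 : WP F) e = e := rfl
theorem toFun_inv_mul (a : WP F) (e : ℕ × F) : toFun a⁻¹ (toFun a e) = e := by
  rw [← toFun_mul]; simp [toFun_one]
theorem toFun_mul_inv (a : WP F) (e : ℕ × F) : toFun a (toFun a⁻¹ e) = e := by
  rw [← toFun_mul]; simp [toFun_one]

end

variable {F : Type} [Group F] [Countable F]

instance instMetricWP : MetricSpace (WP F) :=
  letI : Encodable (ℕ × F) := Encodable.ofCountable _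
  letI : MetricSpace (ℕ × F) := discMetric _
  MetricSpace.induced (toFun (F := F)) toFun_inj PiCountable.metricSpace

open scoped Classical in
theorem dist_def (a b : WP F) : dist a b =
    letI : Encodable (ℕ × F) := Encodable.ofCountable _
    ∑' e : ℕ × F, min ((2:ℝ)⁻¹ ^ Encodable.encode e) (if toFun a e = toFun b e then 0 else 1) := by
  letI : Encodable (ℕ × F) := Encodable.ofCountable _
  letI : MetricSpace (ℕ × F) := discMetric _
  change PiCountable.dist.dist (toFun a) (toFun b) = _
  rw [PiCountable.dist_eq_tsum]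
  refine tsum_congr fun e => ?_
  congr 1
  convert discMetric_dist _ _ _

theorem wp_dist_left_inv (k a b : WP F) : dist (k * a) (k * b) = dist a b := by
  classical
  rw [dist_def, dist_def]
  congr 1
  ext e
  congr 1
  have : (toFun (k*a) e) = (toFun (k*b) e) ↔ (toFun a e) = (toFun b e) := by
    simp [toFun]
  simp [this]

/-- a bound for the diameter -/
theorem exists_dist_le : ∃ C : ℝ, ∀ a b : WP F, dist a b ≤ C := by
  classical
  letI : Encodable (ℕ × F) := Encodable.ofCountable _
  refine ⟨∑' e : ℕ × F, (2:ℝ)⁻¹ ^ Encodable.encode e, fun a b => ?_⟩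
  rw [dist_def]
  have h1 : Summable fun e : ℕ × F => ((2:ℝ)⁻¹)^(Encodable.encode e) := by
    simpa [one_div] using summable_geometric_two_encode
  refine Summable.tsum_le_tsum (fun e => min_le_left _ _) ?_ h1
  exact Summable.of_nonneg_of_le (fun e => le_min (by positivity) (by split_ifs <;> norm_num)) (fun e => min_le_left _ _) h1

/-- the topology is that of pointwise convergence -/
theorem isInducing_toFun :
    @IsInducing (WP F) (ℕ × F → ℕ × F) _ (@Pi.topologicalSpace _ _ fun _ => ⊥) toFun := by
  letI : Encodable (ℕ × F) := Encodable.ofCountable _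
  letI : MetricSpace (ℕ × F) := discMetric _
  have h : (discMetric (ℕ × F)).toUniformSpace.toTopologicalSpace = ⊥ :=
    (discMetric_discrete (ℕ × F)).eq_bot
  rw [← h]
  exact ⟨rfl⟩

/-- evaluation is locally constant -/
theorem eventually_eq (a : WP F) (e : ℕ × F) : ∀ᶠ b in 𝓝 a, toFun b e = toFun a e := by
  letI : TopologicalSpace (ℕ × F) := ⊥
  haveI : DiscreteTopology (ℕ × F) := ⟨rfl⟩
  have h1 : Continuous (fun b : WP F => toFun b e) := by
    have := (isInducing_toFun (F := F)).continuous
    exact (continuous_apply e).comp this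
  have h2 : IsOpen {f : ℕ × F | f = toFun a e} := isOpen_discrete _
  exact (h1.isOpen_preimage _ h2).mem_nhds rfl

theorem nhds_basis_toFun (a : WP F) (s : Set (WP F)) :
    s ∈ 𝓝 a ↔ ∃ t : Finset (ℕ × F), ∀ b : WP F, (∀ e ∈ t, toFun b e = toFun a e) → b ∈ s := by
  letI : TopologicalSpace (ℕ × F) := ⊥
  haveI : DiscreteTopology (ℕ × F) := ⟨rfl⟩
  constructor
  · intro hs
    rw [(isInducing_toFun (F := F)).nhds_eq_comap, Filter.mem_comap] at hs
    obtain ⟨u, hu, hus⟩ := hs
    rw [nhds_pi, Filter.mem_pi] at hu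
    obtain ⟨I, hI, v, hv, hvu⟩ := hu
    refine ⟨hI.toFinset, fun b hb => hus (hvu ?_)⟩
    intro e he
    rw [hb e (by simpa using he)]
    exact mem_of_mem_nhds (hv e)
  · rintro ⟨t, ht⟩
    have : ∀ᶠ b in 𝓝 a, ∀ e ∈ t, toFun b e = toFun a e := by
      rw [Filter.eventually_all_finset]
      intro e _
      exact eventually_eq a e
    filter_upwards [this] with b hb using ht b hb

instance : IsTopologicalGroup (WP F) where
  continuous_mul := by
    rw [continuous_iff_continuousAt]
    rintro ⟨a, b⟩
    intro s hs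
    rw [nhds_basis_toFun] at hs
    obtain ⟨t, ht⟩ := hs
    rw [nhds_prod_eq, Filter.mem_map]
    have h1 : ∀ᶠ b' in 𝓝 b, ∀ e ∈ t, toFun b' e = toFun b e := by
      rw [Filter.eventually_all_finset]
      intro e _
      exact eventually_eq b e
    have h2 : ∀ᶠ a' in 𝓝 a, ∀ e ∈ t, toFun a' (toFun b e) = toFun a (toFun b e) := by
      rw [Filter.eventually_all_finset]
      intro e _
      exact eventually_eq a _
    filter_upwards [h2.prod_mk h1] with p hp
    apply ht
    intro e he
    change toFun (p.1 * p.2) e = toFun (a * b) e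
    rw [toFun_mul, toFun_mul, hp.2 e he, hp.1 e he]
  continuous_inv := by
    rw [continuous_iff_continuousAt]
    intro a s hs
    rw [nhds_basis_toFun] at hs
    obtain ⟨t, ht⟩ := hs
    rw [Filter.mem_map]
    have h2 : ∀ᶠ a' in 𝓝 a, ∀ e ∈ t, toFun a' (toFun a⁻¹ e) = toFun a (toFun a⁻¹ e) := by
      rw [Filter.eventually_all_finset]
      intro e _
      exact eventually_eq a _
    filter_upwards [h2] with b hb
    apply ht
    intro e he
    have := hb e he
    rw [toFun_mul_inv] at this
    conv_lhs => rw [← this]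
    rw [toFun_inv_mul]


/-! Polishness -/

theorem isClosedEmbedding_pair :
    @IsClosedEmbedding (WP F) ((ℕ × F → ℕ × F) × (ℕ × F → ℕ × F)) _
      (@instTopologicalSpaceProd _ _ (@Pi.topologicalSpace _ _ fun _ => ⊥) (@Pi.topologicalSpace _ _ fun _ => ⊥))
      (fun a => (toFun a, toFun a⁻¹)) := by
  letI : TopologicalSpace (ℕ × F) := ⊥
  haveI : DiscreteTopology (ℕ × F) := ⟨rfl⟩
  have h1 : IsInducing (toFun (F := F)) := isInducing_toFun
  refine ⟨⟨?_, ?_⟩, ?_⟩
  · have h2 : Continuous (fun a : WP F => (toFun a, toFun a⁻¹)) :=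
      h1.continuous.prodMk (h1.continuous.comp continuous_inv)
    exact IsInducing.of_comp h2 continuous_fst h1
  · intro a b hab
    exact toFun_inj (Prod.ext_iff.1 hab).1
  · have h3 : Set.range (fun a : WP F => (toFun a, toFun a⁻¹)) =
      {p : (ℕ × F → ℕ × F) × (ℕ × F → ℕ × F) | (∀ e, p.1 (p.2 e) = e) ∧ (∀ e, p.2 (p.1 e) = e) ∧
        ∀ (e : ℕ × F) (y : F), p.1 (e.1, e.2 * y) = ((p.1 e).1, (p.1 e).2 * y)} := by
      ext p
      constructor
      · rintro ⟨a, rfl⟩
        exact ⟨fun e => toFun_mul_inv a e, fun e => toFun_inv_mul a e, fun e y => WP_apply a e y⟩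
      · rintro ⟨h1, h2, h3⟩
        refine ⟨⟨⟨p.1, p.2, h2, h1⟩, h3⟩, rfl⟩
    rw [h3]
    have hc1 : ∀ e, Continuous fun p : (ℕ × F → ℕ × F) × (ℕ × F → ℕ × F) => p.1 (p.2 e) := by
      intro e
      rw [continuous_iff_continuousAt]
      intro p
      have e1 : ∀ᶠ q in 𝓝 p, q.2 e = p.2 e := by
        have hc : Continuous fun q : (ℕ × F → ℕ × F) × (ℕ × F → ℕ × F) => q.2 e :=
          (continuous_apply e).comp continuous_snd
        exact (hc.isOpen_preimage {x | x = p.2 e} (isOpen_discrete _)).mem_nhds rfl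
      have e2 : ∀ᶠ q in 𝓝 p, q.1 (p.2 e) = p.1 (p.2 e) := by
        have hc : Continuous fun q : (ℕ × F → ℕ × F) × (ℕ × F → ℕ × F) => q.1 (p.2 e) :=
          (continuous_apply (p.2 e)).comp continuous_fst
        exact (hc.isOpen_preimage {x | x = p.1 (p.2 e)} (isOpen_discrete _)).mem_nhds rfl
      have : ∀ᶠ q in 𝓝 p, q.1 (q.2 e) = p.1 (p.2 e) := by
        filter_upwards [e1, e2] with q h1 h2
        rw [h1, h2]
      exact (continuousAt_const.congr (this.mono fun q hq => hq.symm))
    have hc2 : ∀ e, Continuous fun p : (ℕ × F → ℕ × F) × (ℕ × F → ℕ × F) => p.2 (p.1 e) := by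
      intro e
      exact (hc1 e).comp continuous_swap
    have s1 : IsClosed {p : (ℕ × F → ℕ × F) × (ℕ × F → ℕ × F) | ∀ e, p.1 (p.2 e) = e} := by
      have : {p : (ℕ × F → ℕ × F) × (ℕ × F → ℕ × F) | ∀ e, p.1 (p.2 e) = e} =
        ⋂ e, {p | p.1 (p.2 e) = e} := by ext; simp
      rw [this]
      exact isClosed_iInter fun e => isClosed_eq (hc1 e) continuous_const
    have s2 : IsClosed {p : (ℕ × F → ℕ × F) × (ℕ × F → ℕ × F) | ∀ e, p.2 (p.1 e) = e} := by
      have : {p : (ℕ × F → ℕ × F) × (ℕ × F → ℕ × F) | ∀ e, p.2 (p.1 e) = e} =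
        ⋂ e, {p | p.2 (p.1 e) = e} := by ext; simp
      rw [this]
      exact isClosed_iInter fun e => isClosed_eq (hc2 e) continuous_const
    have s3 : IsClosed {p : (ℕ × F → ℕ × F) × (ℕ × F → ℕ × F) |
        ∀ (e : ℕ × F) (y : F), p.1 (e.1, e.2 * y) = ((p.1 e).1, (p.1 e).2 * y)} := by
      have : {p : (ℕ × F → ℕ × F) × (ℕ × F → ℕ × F) |
          ∀ (e : ℕ × F) (y : F), p.1 (e.1, e.2 * y) = ((p.1 e).1, (p.1 e).2 * y)} =
        ⋂ e : ℕ × F, ⋂ y : F, {p | p.1 (e.1, e.2 * y) = ((p.1 e).1, (p.1 e).2 * y)} := by ext; simp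
      rw [this]
      refine isClosed_iInter fun e => isClosed_iInter fun y => isClosed_eq ?_ ?_
      · exact (continuous_apply _).comp continuous_fst
      · have : Continuous fun x : ℕ × F => (x.1, x.2 * y) := continuous_of_discreteTopology
        exact this.comp ((continuous_apply e).comp continuous_fst)
    exact s1.inter (s2.inter s3)

omit [Countable F] [Group F] in
theorem polish_discrete (E : Type) [Countable E] : @PolishSpace E ⊥ := by
  letI : MetricSpace E := discMetric E
  haveI : DiscreteTopology E := discMetric_discrete E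
  have : CompleteSpace E := by
    refine Metric.complete_of_cauchySeq_tendsto ?_
    intro u hu
    rw [Metric.cauchySeq_iff'] at hu
    obtain ⟨N, hN⟩ := hu 1 one_pos
    refine ⟨u N, ?_⟩
    refine tendsto_const_nhds.congr' ?_
    filter_upwards [Filter.eventually_ge_atTop N] with n hn
    have := hN n hn
    by_contra hne
    rw [discMetric_dist] at this
    rw [if_neg (fun h => hne h.symm)] at this
    exact lt_irrefl _ this
  have h2 : PolishSpace E := inferInstance
  rw [(discMetric_discrete E).eq_bot] at h2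
  exact h2

instance : PolishSpace (WP F) := by
  letI : TopologicalSpace (ℕ × F) := ⊥
  haveI : DiscreteTopology (ℕ × F) := ⟨rfl⟩
  haveI : PolishSpace (ℕ × F) := polish_discrete _
  exact (isClosedEmbedding_pair (F := F)).polishSpace


/-! The group `ℓ²(ℕ × F) ⋊ WP F` -/

variable (F) in
/-- The Hilbert space `ℓ²(ℕ × F)`. -/
abbrev HS := lp (fun _ : ℕ × F => ℝ) 2

omit [Countable F] in
/-- the action of `WP F` on the Hilbert space -/
def rho (k : WP F) : HS F ≃ₗᵢ[ℝ] HS F := permRep (k : Equiv.Perm (ℕ × F))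

omit [Countable F] in
theorem rho_mul (a b : WP F) (ξ : HS F) : rho (a * b) ξ = rho a (rho b ξ) := by
  unfold rho
  rw [Subgroup.coe_mul, map_mul]; rfl

omit [Countable F] in
theorem rho_one (ξ : HS F) : rho (1 : WP F) ξ = ξ := by
  unfold rho
  rw [Subgroup.coe_one, map_one]; rfl

omit [Countable F] in
theorem dist_rho (k : WP F) (a b : HS F) : dist (rho k a) (rho k b) = dist a b := (rho k).dist_map a b

theorem continuous_rho_const (ξ : HS F) : Continuous fun k : WP F => rho k ξ := by
  classical
  let S : Set (HS F) := {ξ | Continuous fun k : WP F => rho k ξ}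
  -- `S` is a closed subspace containing the basis vectors
  have hsingle : ∀ (e : ℕ × F) (x : ℝ), (lp.single 2 e x : HS F) ∈ S := by
    intro e x
    change Continuous fun k : WP F => rho k (lp.single 2 e x)
    rw [continuous_iff_continuousAt]
    intro k
    have hev : (fun _ : WP F => rho k (lp.single 2 e x)) =ᶠ[𝓝 k] fun l => rho l (lp.single 2 e x) := by
      filter_upwards [eventually_eq k e] with l hl
      unfold rho
      rw [permRep_single, permRep_single]
      have hl' : (l : Equiv.Perm (ℕ × F)) e = (k : Equiv.Perm (ℕ × F)) e := hl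
      rw [hl']
    exact continuousAt_const.congr hev
  have hsum : ∀ s : Finset (ℕ × F), (∑ e ∈ s, (lp.single 2 e (ξ e) : HS F)) ∈ S := by
    intro s
    change Continuous fun k : WP F => rho k (∑ e ∈ s, (lp.single 2 e (ξ e) : HS F))
    simp only [map_sum]
    exact continuous_finset_sum _ fun e _ => hsingle e (ξ e)
  have hlim := lp.hasSum_single (p := 2) (by norm_num) ξ
  -- uniform limit
  have hu : TendstoUniformly (fun (s : Finset (ℕ × F)) (k : WP F) => rho k (∑ e ∈ s, (lp.single 2 e (ξ e) : HS F)))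
      (fun k : WP F => rho k ξ) atTop := by
    rw [Metric.tendstoUniformly_iff]
    intro ε hε
    have := (Metric.tendsto_nhds.1 hlim) ε hε
    filter_upwards [this] with s hs k
    rw [dist_comm, dist_rho]
    exact hs
  exact hu.continuous (Filter.Frequently.of_forall fun s => hsum s)

theorem continuous_rho : Continuous fun p : WP F × HS F => rho p.1 p.2 := by
  rw [continuous_iff_continuousAt]
  rintro ⟨k, ξ⟩
  rw [ContinuousAt, Metric.tendsto_nhds]
  intro ε hε
  have h1 : ∀ᶠ p : WP F × HS F in 𝓝 (k, ξ), dist (rho p.1 ξ) (rho k ξ) < ε / 2 := by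
    have h0 : Tendsto (fun p : WP F × HS F => rho p.1 ξ) (𝓝 (k, ξ)) (𝓝 (rho k ξ)) :=
      ((continuous_rho_const ξ).tendsto k).comp (continuous_fst.tendsto (k, ξ))
    exact h0.eventually (Metric.ball_mem_nhds _ (half_pos hε))
  have h2 : ∀ᶠ p : WP F × HS F in 𝓝 (k, ξ), dist p.2 ξ < ε / 2 := by
    have h0 : Tendsto (fun p : WP F × HS F => p.2) (𝓝 (k, ξ)) (𝓝 ξ) := continuous_snd.tendsto (k, ξ)
    exact h0.eventually (Metric.ball_mem_nhds _ (half_pos hε))
  filter_upwards [h1, h2] with p hp1 hp2
  have h3 : dist (rho p.1 p.2) (rho p.1 ξ) = dist p.2 ξ := dist_rho _ _ _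
  have h4 : dist (rho p.1 p.2) (rho k ξ) ≤ dist (rho p.1 p.2) (rho p.1 ξ) + dist (rho p.1 ξ) (rho k ξ) :=
    dist_triangle _ _ _
  rw [h3] at h4
  have h5 : dist p.2 ξ + dist (rho p.1 ξ) (rho k ξ) < ε := by
    have := add_lt_add hp2 hp1
    rwa [add_halves] at this
  exact lt_of_le_of_lt h4 h5

variable (F) in
/-- The group of affine isometries `ξ ↦ rho k ξ + v` of `ℓ²(ℕ × F)`. -/
@[ext] structure AG where
  vec : HS F
  perm : WP F

omit [Countable F] in
variable (F) in
/-- underlying pair -/
def AG.equivProd : AG F ≃ HS F × WP F where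
  toFun g := (g.vec, g.perm)
  invFun p := ⟨p.1, p.2⟩
  left_inv _ := rfl
  right_inv _ := rfl

instance : MetricSpace (AG F) :=
  MetricSpace.induced (AG.equivProd F) (AG.equivProd F).injective inferInstance

theorem AG.isInducing : IsInducing (AG.equivProd F) := ⟨rfl⟩

theorem AG.isHomeo : IsHomeomorph (AG.equivProd F) :=
  ((AG.equivProd F).toHomeomorphOfIsInducing AG.isInducing).isHomeomorph

omit [Countable F] in
instance : Group (AG F) where
  mul a b := ⟨a.vec + rho a.perm b.vec, a.perm * b.perm⟩
  one := ⟨0, 1⟩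
  inv a := ⟨- rho a.perm⁻¹ a.vec, a.perm⁻¹⟩
  mul_assoc a b c := by
    ext1
    · change (a.vec + rho a.perm b.vec) + rho (a.perm * b.perm) c.vec = a.vec + rho a.perm (b.vec + rho b.perm c.vec)
      rw [rho_mul, map_add, add_assoc]
    · exact mul_assoc _ _ _
  one_mul a := by
    ext1
    · change 0 + rho 1 a.vec = a.vec
      rw [rho_one, zero_add]
    · exact one_mul _
  mul_one a := by
    ext1
    · change a.vec + rho a.perm 0 = a.vec
      rw [map_zero, add_zero]
    · exact mul_one _
  inv_mul_cancel a := by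
    ext1
    · change - rho a.perm⁻¹ a.vec + rho a.perm⁻¹ a.vec = 0
      simp
    · exact inv_mul_cancel _

omit [Countable F] in
theorem AG.mul_def (a b : AG F) : a * b = ⟨a.vec + rho a.perm b.vec, a.perm * b.perm⟩ := rfl
omit [Countable F] in
theorem AG.one_def : (1 : AG F) = ⟨0, 1⟩ := rfl
omit [Countable F] in
theorem AG.inv_def (a : AG F) : a⁻¹ = ⟨- rho a.perm⁻¹ a.vec, a.perm⁻¹⟩ := rfl

theorem AG.continuous_vec : Continuous (AG.vec : AG F → HS F) :=
  continuous_fst.comp AG.isInducing.continuous
theorem AG.continuous_perm : Continuous (AG.perm : AG F → WP F) :=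
  continuous_snd.comp AG.isInducing.continuous

instance : IsTopologicalGroup (AG F) where
  continuous_mul := by
    rw [AG.isInducing.continuous_iff]
    change Continuous fun p : AG F × AG F => (p.1.vec + rho p.1.perm p.2.vec, p.1.perm * p.2.perm)
    refine Continuous.prodMk ?_ ?_
    · refine (AG.continuous_vec.comp continuous_fst).add ?_
      exact continuous_rho.comp ((AG.continuous_perm.comp continuous_fst).prodMk (AG.continuous_vec.comp continuous_snd))
    · exact (AG.continuous_perm.comp continuous_fst).mul (AG.continuous_perm.comp continuous_snd)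
  continuous_inv := by
    rw [AG.isInducing.continuous_iff]
    change Continuous fun a : AG F => (- rho a.perm⁻¹ a.vec, a.perm⁻¹)
    refine Continuous.prodMk ?_ ?_
    · exact (continuous_rho.comp (AG.continuous_perm.inv.prodMk AG.continuous_vec)).neg
    · exact AG.continuous_perm.inv

instance : PolishSpace (AG F) :=
  AG.isHomeo.isClosedEmbedding.polishSpace

theorem AG.dist_def (a b : AG F) : dist a b = max (dist a.vec b.vec) (dist a.perm b.perm) := rfl

theorem AG.dist_left_inv (h a b : AG F) : dist (h * a) (h * b) = dist a b := by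
  rw [AG.dist_def, AG.dist_def, AG.mul_def, AG.mul_def]
  congr 1
  · change dist (h.vec + rho h.perm a.vec) (h.vec + rho h.perm b.vec) = _
    rw [dist_add_left, dist_rho]
  · exact wp_dist_left_inv _ _ _


/-! Coarse boundedness of `WP F` -/

section bounded
variable {F : Type} [Group F]

/-- The element `(i, x) ↦ (ρ i, g i * x)`. -/
def mkWP (ρ : Equiv.Perm ℕ) (g : ℕ → F) : WP F :=
  ⟨{ toFun := fun e => (ρ e.1, g e.1 * e.2)
     invFun := fun e => (ρ.symm e.1, (g (ρ.symm e.1))⁻¹ * e.2)
     left_inv := fun e => by simp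
     right_inv := fun e => by simp },
   fun e y => by
    change (ρ e.1, g e.1 * (e.2 * y)) = (ρ e.1, g e.1 * e.2 * y)
    rw [mul_assoc]⟩

theorem toFun_mkWP (ρ : Equiv.Perm ℕ) (g : ℕ → F) (i : ℕ) (x : F) :
    toFun (mkWP ρ g) (i, x) = (ρ i, g i * x) := rfl

theorem toFun_right (k : WP F) (i : ℕ) (x y : F) :
    toFun k (i, x * y) = ((toFun k (i, x)).1, (toFun k (i, x)).2 * y) := WP_apply k (i, x) y

theorem toFun_eq_of_one (k : WP F) (i : ℕ) (x : F) :
    toFun k (i, x) = ((toFun k (i, 1)).1, (toFun k (i, 1)).2 * x) := by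
  have := toFun_right k i 1 x
  rwa [one_mul] at this

/-- swap of the blocks `[a, a+n)` and `[b, b+n)` where `a + n ≤ b`. -/
def swapFun (a b n i : ℕ) : ℕ :=
  if a ≤ i ∧ i < a + n then i - a + b else if b ≤ i ∧ i < b + n then i - b + a else i

theorem swapFun_invol (a b n : ℕ) (h : a + n ≤ b) : Function.Involutive (swapFun a b n) := by
  intro i
  unfold swapFun
  split_ifs <;> omega

/-- swap of the blocks `[a, a+n)` and `[b, b+n)` as an element of `WP F`. -/
def bswap (F : Type) [Group F] (a b n : ℕ) (h : a + n ≤ b) : WP F :=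
  mkWP (swapFun_invol a b n h).toPerm (fun _ => 1)

theorem toFun_bswap (a b n : ℕ) (h : a + n ≤ b) (i : ℕ) (x : F) :
    toFun (bswap F a b n h) (i, x) = (swapFun a b n i, x) := by
  unfold bswap
  rw [toFun_mkWP, one_mul]
  rfl

theorem bswap_mul_self (a b n : ℕ) (h : a + n ≤ b) : bswap F a b n h * bswap F a b n h = 1 := by
  apply toFun_inj
  funext e
  obtain ⟨i, x⟩ := e
  rw [toFun_mul, toFun_bswap, toFun_bswap, swapFun_invol a b n h i, toFun_one]

theorem exists_mkWP (n : ℕ) (j : ℕ → ℕ) (y : ℕ → F) (hj : ∀ i < n, n ≤ j i)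
    (hinj : ∀ i < n, ∀ i' < n, j i = j i' → i = i') :
    ∃ u : WP F, (∀ i < n, toFun u (i, 1) = (i, 1)) ∧ ∀ i < n, toFun u (n + i, 1) = (j i, y i) := by
  have hinj1 : Function.Injective (fun m : Fin (2 * n) => (m : ℕ)) := Fin.val_injective
  let f2 : Fin (2 * n) → ℕ := fun m => if (m : ℕ) < n then (m : ℕ) else j ((m : ℕ) - n)
  have hinj2 : Function.Injective f2 := by
    intro a b hab
    have ha := a.2
    have hb := b.2
    simp only [f2] at hab
    apply Fin.ext
    by_cases h1 : (a : ℕ) < n <;> by_cases h2 : (b : ℕ) < n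
    · simpa [h1, h2] using hab
    · simp only [h1, h2, if_true, if_false] at hab
      have := hj ((b : ℕ) - n) (by omega)
      omega
    · simp only [h1, h2, if_true, if_false] at hab
      have := hj ((a : ℕ) - n) (by omega)
      omega
    · simp only [h1, h2, if_false] at hab
      have := hinj _ (by omega) _ (by omega) hab
      omega
  have htr := Equiv.Perm.isMultiplyPretransitive ℕ (2 * n)
  obtain ⟨ρ, hρ⟩ := htr.exists_smul_eq (⟨_, hinj1⟩ : Fin (2 * n) ↪ ℕ) ⟨f2, hinj2⟩
  have hρ' : ∀ m : Fin (2 * n), ρ (m : ℕ) = f2 m := fun m => by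
    have := DFunLike.congr_fun hρ m
    exact this
  refine ⟨mkWP ρ (fun m => if m < n then 1 else y (m - n)), ?_, ?_⟩
  · intro i hi
    rw [toFun_mkWP]
    have := hρ' ⟨i, by omega⟩
    simp only [f2, hi, if_true] at this
    rw [this]
    simp [hi]
  · intro i hi
    rw [toFun_mkWP]
    have := hρ' ⟨n + i, by omega⟩
    have h3 : ¬ (n + i < n) := by omega
    simp only [f2, h3, if_false] at this
    rw [this]
    simp [h3]

/-- Factorisation of an arbitrary element of `WP F`. -/
theorem exists_factor (n : ℕ) (k : WP F) :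
    ∃ u v w : WP F, (∀ i < n, toFun u (i, 1) = (i, 1)) ∧ (∀ i < n, toFun v (i, 1) = (i, 1)) ∧
      (∀ i < n, toFun w (i, 1) = (i, 1)) ∧
      k = u * bswap F 0 n n (by omega) * (v * bswap F 0 n n (by omega)) * w := by
  -- a large number
  obtain ⟨N, hN2, hN⟩ : ∃ N, 2 * n ≤ N ∧ ∀ i < n, (toFun k (i, 1)).1 < N := by
    refine ⟨2 * n + ∑ i ∈ Finset.range n, ((toFun k (i, 1)).1 + 1), by omega, fun i hi => ?_⟩
    have := Finset.single_le_sum (f := fun i => (toFun k (i, 1)).1 + 1) (fun _ _ => Nat.zero_le _)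
      (Finset.mem_range.2 hi)
    omega
  let u : WP F := bswap F n N n (by omega)
  let t : WP F := bswap F 0 n n (by omega)
  let w0 : WP F := t * (u * k)
  have hut : u * u = 1 := bswap_mul_self _ _ _ _
  have htt : t * t = 1 := bswap_mul_self _ _ _ _
  have hk : k = u * t * w0 := by
    simp only [w0]
    rw [mul_assoc, ← mul_assoc t t, htt, one_mul, ← mul_assoc, hut, one_mul]
  have hj : ∀ i < n, n ≤ (toFun w0 (i, 1)).1 := by
    intro i hi
    simp only [w0, toFun_mul]
    have h1 := hN i hi
    generalize hq : toFun k (i, 1) = q at h1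
    obtain ⟨j, y⟩ := q
    simp only at h1
    simp only [u, t]
    rw [toFun_bswap, toFun_bswap]
    simp only
    unfold swapFun
    split_ifs <;> omega
  have hinj : ∀ i < n, ∀ i' < n, (toFun w0 (i, 1)).1 = (toFun w0 (i', 1)).1 → i = i' := by
    intro i _ i' _ h
    have h2 : toFun w0 (i, (toFun w0 (i, 1)).2⁻¹ * (toFun w0 (i', 1)).2) = toFun w0 (i', 1) := by
      rw [toFun_eq_of_one]
      apply Prod.ext
      · exact h
      · simp
    have h3 : Function.Injective (toFun w0) := fun a b hab => by
      have := congrArg (toFun w0⁻¹) hab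
      rwa [toFun_inv_mul, toFun_inv_mul] at this
    exact (Prod.ext_iff.1 (h3 h2)).1
  obtain ⟨v, hv1, hv2⟩ := exists_mkWP n (fun i => (toFun w0 (i, 1)).1) (fun i => (toFun w0 (i, 1)).2) hj hinj
  refine ⟨u, v, (v * t)⁻¹ * w0, ?_, hv1, ?_, ?_⟩
  · intro i hi
    simp only [u]
    rw [toFun_bswap]
    congr 1
    unfold swapFun
    split_ifs <;> omega
  · intro i hi
    have h1 : toFun (v * t) (i, 1) = toFun w0 (i, 1) := by
      rw [toFun_mul]
      simp only [t]
      rw [toFun_bswap]
      have : swapFun 0 n n i = n + i := by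
        unfold swapFun
        split_ifs <;> omega
      rw [this, hv2 i hi]
    rw [toFun_mul, ← h1, toFun_inv_mul]
  · change k = u * t * (v * t) * ((v * t)⁻¹ * w0)
    rw [mul_assoc (u * t), mul_inv_cancel_left]
    exact hk

end bounded

/-- Every subadditive function on `WP F` that is bounded near `1` is bounded above. -/
theorem length_bounded {F : Type} [Group F] [Countable F] (L : WP F → ℝ) (hL : ∀ a b, L (a * b) ≤ L a + L b)
    (h1 : ∀ᶠ a in 𝓝 (1 : WP F), L a < 1) : ∃ C : ℝ, ∀ k, L k ≤ C := by
  rw [Filter.Eventually, nhds_basis_toFun] at h1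
  obtain ⟨t, ht⟩ := h1
  obtain ⟨n, hn⟩ : ∃ n, ∀ e ∈ t, e.1 < n := by
    refine ⟨∑ e ∈ t, (e.1 + 1), fun e he => ?_⟩
    have := Finset.single_le_sum (f := fun e : ℕ × F => e.1 + 1) (fun _ _ => Nat.zero_le _) he
    omega
  have hV : ∀ u : WP F, (∀ i < n, toFun u (i, 1) = (i, 1)) → L u < 1 := by
    intro u hu
    apply ht
    intro e he
    obtain ⟨i, x⟩ := e
    rw [toFun_eq_of_one, hu i (hn _ he), toFun_one]
    simp
  refine ⟨3 + 2 * L (bswap F 0 n n (by omega)), fun k => ?_⟩
  obtain ⟨u, v, w, hu, hv, hw, rfl⟩ := exists_factor n k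
  have a1 := hL (u * bswap F 0 n n (by omega) * (v * bswap F 0 n n (by omega))) w
  have a2 := hL (u * bswap F 0 n n (by omega)) (v * bswap F 0 n n (by omega))
  have a3 := hL u (bswap F 0 n n (by omega))
  have a4 := hL v (bswap F 0 n n (by omega))
  have b1 := hV u hu
  have b2 := hV v hv
  have b3 := hV w hw
  linarith



section maximal

variable {F : Type} [Group F] [Countable F]

theorem isCompat_dist : IsCompatibleLeftInvariantMetric (AG F) (fun a b => dist a b) where
  dist_self := dist_self
  eq_of_dist_eq_zero := fun _ _ => eq_of_dist_eq_zero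
  dist_comm := dist_comm
  dist_triangle := dist_triangle
  isOpen_iff := fun U => by
    rw [Metric.isOpen_iff]
    refine forall₂_congr fun g _ => exists_congr fun ε => and_congr_right fun _ => ?_
    constructor
    · intro h k hk
      exact h (by rw [Metric.mem_ball, dist_comm]; exact hk)
    · intro h k hk
      exact h k (by rw [dist_comm]; exact hk)
  left_invariant := AG.dist_left_inv

theorem nsmul_vec (ξ : HS F) (n : ℕ) : (⟨ξ, 1⟩ : AG F) ^ n = ⟨n • ξ, 1⟩ := by
  induction n with
  | zero => rw [pow_zero, zero_smul]; rfl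
  | succ n ih =>
    rw [pow_succ, ih, AG.mul_def, rho_one, succ_nsmul, mul_one]

theorem isMaximal_dist : IsMaximalMetric (AG F) (fun a b => dist a b) := by
  refine ⟨isCompat_dist, fun d' hd' => ?_⟩
  -- length function
  set L : AG F → ℝ := fun g => d' g 1 with hLdef
  have hLmul : ∀ a b, L (a * b) ≤ L a + L b := by
    intro a b
    have h1 := hd'.dist_triangle (a * b) a 1
    have h2 : d' (a * b) a = d' b 1 := by
      have := hd'.left_invariant a b 1
      rwa [mul_one] at this
    rw [h2] at h1
    simp only [L]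
    linarith
  have hLone : L 1 = 0 := hd'.dist_self 1
  have hLpow : ∀ (a : AG F) (n : ℕ), L (a ^ n) ≤ n * L a := by
    intro a n
    induction n with
    | zero => simp [hLone]
    | succ n ih =>
      rw [pow_succ]
      have := hLmul (a ^ n) a
      push_cast
      linarith
  have hU : {g : AG F | L g < 1} ∈ 𝓝 (1 : AG F) := by
    apply IsOpen.mem_nhds
    · rw [hd'.isOpen_iff]
      intro g hg
      refine ⟨1 - L g, sub_pos.2 hg, fun h hgh => ?_⟩
      have h1 := hd'.dist_triangle h g 1
      have h2 := hd'.dist_comm h g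
      simp only [Set.mem_ofPred_eq, L] at *
      linarith
    · simp [hLone]
  -- the compact-like part
  obtain ⟨C1, hC1⟩ : ∃ C : ℝ, ∀ k : WP F, L ⟨0, k⟩ ≤ C := by
    apply length_bounded (fun k : WP F => L ⟨0, k⟩)
    · intro a b
      have : (⟨0, a * b⟩ : AG F) = ⟨0, a⟩ * ⟨0, b⟩ := by
        rw [AG.mul_def]; simp
      rw [this]
      exact hLmul _ _
    · have hc : Continuous fun k : WP F => (⟨0, k⟩ : AG F) := by
        rw [AG.isInducing.continuous_iff]
        exact continuous_const.prodMk continuous_id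
      exact (hc.tendsto 1).eventually hU
  obtain ⟨ε, hε, hball⟩ : ∃ ε > 0, ∀ ξ : HS F, ‖ξ‖ < ε → L ⟨ξ, 1⟩ < 1 := by
    have hc : Continuous fun ξ : HS F => (⟨ξ, 1⟩ : AG F) := by
      rw [AG.isInducing.continuous_iff]
      exact continuous_id.prodMk continuous_const
    have h1 := (hc.tendsto 0).eventually hU
    obtain ⟨ε, hε, h2⟩ := Metric.eventually_nhds_iff.1 h1
    exact ⟨ε, hε, fun ξ hξ => h2 (by rw [dist_zero_right]; exact hξ)⟩
  have hlin : ∀ ξ : HS F, L ⟨ξ, 1⟩ ≤ ‖ξ‖ / ε + 1 := by
    intro ξ
    obtain ⟨n, hn⟩ : ∃ n : ℕ, n = ⌊‖ξ‖ / ε⌋₊ + 1 := ⟨_, rfl⟩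
    have hn0 : (0 : ℝ) < n := by rw [hn]; positivity
    have hn1 : ‖ξ‖ / ε < n := by rw [hn]; push_cast; exact Nat.lt_floor_add_one _
    have hn2 : (n : ℝ) ≤ ‖ξ‖ / ε + 1 := by
      rw [hn]; push_cast
      have := Nat.floor_le (a := ‖ξ‖ / ε) (by positivity)
      linarith
    have h1 : (⟨ξ, 1⟩ : AG F) = (⟨(n : ℝ)⁻¹ • ξ, 1⟩ : AG F) ^ n := by
      rw [nsmul_vec]
      congr 1
      rw [← Nat.cast_smul_eq_nsmul ℝ, smul_smul, mul_inv_cancel₀ hn0.ne', one_smul]
    have h2 : ‖(n : ℝ)⁻¹ • ξ‖ < ε := by
      rw [norm_smul, norm_inv, Real.norm_natCast, inv_mul_lt_iff₀ hn0]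
      rw [div_lt_iff₀ hε] at hn1
      exact hn1
    have h3 := hball _ h2
    rw [h1]
    calc L ((⟨(n : ℝ)⁻¹ • ξ, 1⟩ : AG F) ^ n) ≤ n * L ⟨(n : ℝ)⁻¹ • ξ, 1⟩ := hLpow _ _
      _ ≤ n * 1 := by gcongr
      _ ≤ ‖ξ‖ / ε + 1 := by linarith
  have htot : ∀ g : AG F, L g ≤ ‖g.vec‖ / ε + (C1 + 1) := by
    intro g
    have h1 : g = ⟨g.vec, 1⟩ * ⟨0, g.perm⟩ := by
      rw [AG.mul_def]; simp
    calc L g = L (⟨g.vec, 1⟩ * ⟨0, g.perm⟩) := by rw [← h1]
      _ ≤ L ⟨g.vec, 1⟩ + L ⟨0, g.perm⟩ := hLmul _ _
      _ ≤ _ := by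
        have := hlin g.vec
        have := hC1 g.perm
        linarith
  refine ⟨max (1 / ε) (C1 + 1), fun g h => ?_⟩
  have h1 : d' g h = L (h⁻¹ * g) := by
    simp only [L]
    rw [← hd'.left_invariant h⁻¹ g h, inv_mul_cancel]
  have h2 : ‖(h⁻¹ * g).vec‖ ≤ dist g h := by
    rw [← AG.dist_left_inv h⁻¹ g h, inv_mul_cancel, AG.dist_def]
    refine le_trans (le_of_eq ?_) (le_max_left _ _)
    rw [AG.one_def]
    simp only
    rw [dist_zero_right]
  rw [h1]
  calc L (h⁻¹ * g) ≤ ‖(h⁻¹ * g).vec‖ / ε + (C1 + 1) := htot _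
    _ ≤ dist g h / ε + (C1 + 1) := by gcongr
    _ = (1 / ε) * dist g h + (C1 + 1) := by ring
    _ ≤ max (1 / ε) (C1 + 1) * dist g h + max (1 / ε) (C1 + 1) := by
      gcongr
      · exact le_max_left _ _
      · exact le_max_right _ _

variable (F) in
/-- The tautological affine isometric action of `AG F` on `ℓ²(ℕ × F)`. -/
def tautAction : AffineIsometricAction (AG F) (HS F) where
  lin :=
    { toFun := fun g => rho g.perm
      map_one' := by
        ext1 ξ
        exact rho_one ξ
      map_mul' := fun a b => by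
        ext1 ξ
        exact rho_mul _ _ _ }
  coc := AG.vec
  coc_mul := fun g h => by
    rw [AG.mul_def, add_comm]; rfl
  continuous_action := by
    refine Continuous.add ?_ (AG.continuous_vec.comp continuous_fst)
    exact continuous_rho.comp ((AG.continuous_perm.comp continuous_fst).prodMk continuous_snd)

theorem isEmbedding_taut :
    IsEmbedding fun (g : AG F) (ξ : HS F) => (tautAction F).lin g ξ + (tautAction F).coc g := by
  classical
  constructor
  · -- inducing
    have hcont : Continuous fun (g : AG F) (ξ : HS F) => (tautAction F).lin g ξ + (tautAction F).coc g := by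
      refine continuous_pi fun ξ => ?_
      exact (tautAction F).continuous_action.comp (continuous_id.prodMk continuous_const)
    refine isInducing_iff_nhds.2 fun g => le_antisymm hcont.continuousAt.le_comap ?_
    -- the comap filter is finer
    set c := Filter.comap (fun (g : AG F) (ξ : HS F) => (tautAction F).lin g ξ + (tautAction F).coc g)
      (𝓝 (fun ξ : HS F => (tautAction F).lin g ξ + (tautAction F).coc g)) with hc
    have htend : ∀ ξ : HS F, Tendsto (fun h : AG F => (tautAction F).lin h ξ + (tautAction F).coc h) c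
        (𝓝 ((tautAction F).lin g ξ + (tautAction F).coc g)) := by
      intro ξ
      have h1 : Tendsto (fun (g : AG F) (ξ : HS F) => (tautAction F).lin g ξ + (tautAction F).coc g) c
          (𝓝 (fun ξ : HS F => (tautAction F).lin g ξ + (tautAction F).coc g)) := tendsto_comap
      exact (tendsto_pi_nhds.1 h1) ξ
    have hvec : Tendsto (AG.vec : AG F → HS F) c (𝓝 g.vec) := by
      have := htend 0
      simp only [map_zero, zero_add] at this
      exact this
    have hlin : ∀ ξ : HS F, Tendsto (fun h : AG F => rho h.perm ξ) c (𝓝 (rho g.perm ξ)) := by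
      intro ξ
      have h1 := (htend ξ).sub hvec
      have e1 : (fun h : AG F => rho h.perm ξ) =
        fun h : AG F => (tautAction F).lin h ξ + (tautAction F).coc h - h.vec := by
        funext h
        exact (add_sub_cancel_right _ _).symm
      have e2 : rho g.perm ξ = (tautAction F).lin g ξ + (tautAction F).coc g - g.vec :=
        (add_sub_cancel_right _ _).symm
      rw [e1, e2]
      exact h1
    have hperm : Tendsto (AG.perm : AG F → WP F) c (𝓝 g.perm) := by
      intro s hs
      rw [nhds_basis_toFun] at hs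
      obtain ⟨t, ht⟩ := hs
      have hev : ∀ᶠ h in c, ∀ e ∈ t, toFun h.perm e = toFun g.perm e := by
        rw [Filter.eventually_all_finset]
        intro e _
        have h2 := hlin (lp.single 2 e (1 : ℝ))
        have h3 : ∀ᶠ h in c, ‖(rho h.perm (lp.single 2 e (1 : ℝ)) - rho g.perm (lp.single 2 e (1 : ℝ)) : HS F)‖ < 1 := by
          have := h2.eventually (Metric.ball_mem_nhds _ one_pos)
          filter_upwards [this] with h hh
          rw [← dist_eq_norm]
          exact hh
        filter_upwards [h3] with h hh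
        by_contra hne
        have h4 := lp.norm_apply_le_norm (p := 2) (by norm_num)
          (rho h.perm (lp.single 2 e (1 : ℝ)) - rho g.perm (lp.single 2 e (1 : ℝ)) : HS F) (toFun h.perm e)
        have h5 : (rho h.perm (lp.single 2 e (1 : ℝ)) - rho g.perm (lp.single 2 e (1 : ℝ)) : HS F) (toFun h.perm e) = 1 := by
          rw [lp.coeFn_sub]
          simp only [rho]
          rw [permRep_single, permRep_single]
          change (lp.single 2 (toFun h.perm e) (1:ℝ) : HS F) (toFun h.perm e) - (lp.single 2 (toFun g.perm e) (1:ℝ) : HS F) (toFun h.perm e) = 1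
          rw [lp.single_apply_self, lp.single_apply_ne _ _ _ hne, sub_zero]
        rw [h5, norm_one] at h4
        linarith
      rw [Filter.mem_map]
      filter_upwards [hev] with h hh using ht _ hh
    rw [AG.isInducing.nhds_eq_comap]
    rw [← Filter.tendsto_iff_comap, nhds_prod_eq]
    exact hvec.prodMk hperm
  · -- injective
    intro a b hab
    have h0 := congrFun hab 0
    simp only [map_zero, zero_add] at h0
    have hvec : a.vec = b.vec := h0
    have hperm : a.perm = b.perm := by
      apply toFun_inj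
      funext e
      have h1 := congrFun hab (lp.single 2 e (1 : ℝ))
      have h2 : rho a.perm (lp.single 2 e (1 : ℝ) : HS F) = rho b.perm (lp.single 2 e (1 : ℝ)) := by
        have : rho a.perm (lp.single 2 e (1 : ℝ) : HS F) + a.vec = rho b.perm (lp.single 2 e (1 : ℝ)) + b.vec := h1
        rw [hvec] at this
        exact add_right_cancel this
      by_contra hne
      unfold rho at h2
      rw [permRep_single, permRep_single] at h2
      have h3 := congrArg (fun ξ : HS F => ξ (toFun a.perm e)) h2
      have h4 : (lp.single 2 (toFun a.perm e) (1:ℝ) : HS F) (toFun a.perm e) = (lp.single 2 (toFun b.perm e) (1:ℝ) : HS F) (toFun a.perm e) := h3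
      rw [lp.single_apply_self, lp.single_apply_ne _ _ _ hne] at h4
      exact one_ne_zero h4
    exact AG.ext hvec hperm

end maximal



/-! Non-amenability -/

section nonamenable

variable {F : Type} [Group F] [Countable F]

/-- The space `X^ℕ` on which `WP F` acts when `F` acts on `X`. -/
def YSp (X : Type) : Type := ℕ → X

instance (X : Type) [TopologicalSpace X] : TopologicalSpace (YSp X) := inferInstanceAs (TopologicalSpace (ℕ → X))
instance (X : Type) [TopologicalSpace X] [CompactSpace X] : CompactSpace (YSp X) := inferInstanceAs (CompactSpace (ℕ → X))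
instance (X : Type) [TopologicalSpace X] [T2Space X] : T2Space (YSp X) := inferInstanceAs (T2Space (ℕ → X))
instance (X : Type) [Nonempty X] : Nonempty (YSp X) := inferInstanceAs (Nonempty (ℕ → X))

omit [Countable F] in
/-- `WP F` acts on `X^ℕ`. -/
@[reducible] def yAction (X : Type) [TopologicalSpace X] (Φ : F →* (X ≃ₜ X)) : MulAction (AG F) (YSp X) where
  smul g ψ := fun i => Φ (toFun g.perm⁻¹ (i, 1)).2⁻¹ (ψ (toFun g.perm⁻¹ (i, 1)).1)
  one_smul ψ := by
    funext i
    change Φ (toFun (1 : WP F)⁻¹ (i, 1)).2⁻¹ (ψ (toFun (1 : WP F)⁻¹ (i, 1)).1) = ψ i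
    rw [inv_one, toFun_one]
    simp only [inv_one, map_one]
    rfl
  mul_smul g h ψ := by
    funext i
    change Φ (toFun (g.perm * h.perm)⁻¹ (i, 1)).2⁻¹ (ψ (toFun (g.perm * h.perm)⁻¹ (i, 1)).1) =
      Φ (toFun g.perm⁻¹ (i, 1)).2⁻¹ (Φ (toFun h.perm⁻¹ ((toFun g.perm⁻¹ (i, 1)).1, 1)).2⁻¹
        (ψ (toFun h.perm⁻¹ ((toFun g.perm⁻¹ (i, 1)).1, 1)).1))
    rw [mul_inv_rev, toFun_mul]
    generalize toFun g.perm⁻¹ (i, 1) = q
    obtain ⟨j, y⟩ := q
    rw [toFun_eq_of_one h.perm⁻¹ j y]
    generalize toFun h.perm⁻¹ (j, 1) = r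
    obtain ⟨l, z⟩ := r
    simp only [mul_inv_rev, map_mul]
    rfl

theorem yAction_cont (X : Type) [TopologicalSpace X] (Φ : F →* (X ≃ₜ X)) :
    @ContinuousSMul (AG F) (YSp X) (yAction X Φ).toSMul _ _ := by
  letI := yAction X Φ
  constructor
  refine continuous_pi fun i => ?_
  rw [continuous_iff_continuousAt]
  rintro ⟨g, ψ⟩
  change ContinuousAt (fun p : AG F × YSp X => Φ (toFun p.1.perm⁻¹ (i, 1)).2⁻¹ (p.2 (toFun p.1.perm⁻¹ (i, 1)).1)) (g, ψ)
  have h1 : Continuous fun p : AG F × YSp X => p.1.perm⁻¹ := (AG.continuous_perm.comp continuous_fst).inv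
  have h2 : ∀ᶠ p : AG F × YSp X in 𝓝 (g, ψ), toFun p.1.perm⁻¹ (i, 1) = toFun g.perm⁻¹ (i, 1) :=
    (h1.tendsto (g, ψ)).eventually (eventually_eq g.perm⁻¹ (i, 1))
  have h3 : Continuous fun p : AG F × YSp X =>
      Φ (toFun g.perm⁻¹ (i, 1)).2⁻¹ (p.2 (toFun g.perm⁻¹ (i, 1)).1) := by
    refine (Φ (toFun g.perm⁻¹ (i, 1)).2⁻¹).continuous.comp ?_
    have h4 : Continuous fun ψ : ℕ → X => ψ (toFun g.perm⁻¹ (i, 1)).1 := continuous_apply _
    exact h4.comp continuous_snd
  refine h3.continuousAt.congr ?_
  filter_upwards [h2] with p hp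
  rw [hp]

/-- If `F` acts on a nonempty compact Hausdorff space without invariant probability measure,
then `AG F` is not amenable. -/
theorem not_isAmenable (X : Type) [TopologicalSpace X] [CompactSpace X] [T2Space X] [Nonempty X]
    [MeasurableSpace X] [BorelSpace X] [SecondCountableTopology X] (Φ : F →* (X ≃ₜ X))
    (hX : ¬ ∃ ν : MeasureTheory.Measure X, MeasureTheory.IsProbabilityMeasure ν ∧ ∀ s : F, ν.map (Φ s) = ν) :
    ¬ IsAmenable (AG F) := by
  intro hG
  apply hX
  letI act := yAction X Φ
  haveI := yAction_cont X Φ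
  letI : MeasurableSpace (YSp X) := borel _
  haveI : BorelSpace (YSp X) := ⟨rfl⟩
  obtain ⟨μ, hμ, hinv⟩ := hG (YSp X)
  have hev : Continuous fun ψ : YSp X => ψ 0 := continuous_apply (A := fun _ : ℕ => X) 0
  have hevm : Measurable fun ψ : YSp X => ψ 0 := hev.measurable
  refine ⟨μ.map (fun ψ => ψ 0), MeasureTheory.Measure.isProbabilityMeasure_map hevm.aemeasurable, fun s => ?_⟩
  have hs : Measurable (Φ s) := (Φ s).continuous.measurable
  rw [MeasureTheory.Measure.map_map hs hevm]
  set g : AG F := ⟨0, mkWP 1 (fun i => if i = 0 then s else 1)⟩ with hg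
  have hgm : Measurable fun ψ : YSp X => g • ψ := (continuous_const_smul g).measurable
  have h1 : (Φ s) ∘ (fun ψ : YSp X => ψ 0) = (fun ψ : YSp X => ψ 0) ∘ (fun ψ => g • ψ) := by
    funext ψ
    change Φ s (ψ 0) = Φ (toFun g.perm⁻¹ (0, 1)).2⁻¹ (ψ (toFun g.perm⁻¹ (0, 1)).1)
    have h2 : toFun g.perm⁻¹ (0, 1) = (0, s⁻¹) := by
      have h3 : toFun g.perm (0, s⁻¹) = (0, 1) := by
        rw [hg]
        simp only
        rw [toFun_mkWP]
        simp
      rw [← h3, toFun_inv_mul]
    rw [h2]
    simp
  rw [h1, ← MeasureTheory.Measure.map_map hevm hgm, hinv g]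

end nonamenable

section cantor

theorem continuous_cond' {X : Type} [TopologicalSpace X] {a b c : X → Bool} (ha : Continuous a)
    (hb : Continuous b) (hc : Continuous c) : Continuous fun x => cond (a x) (b x) (c x) :=
  (continuous_of_discreteTopology (f := fun p : Bool × Bool × Bool => cond p.1 p.2.1 p.2.2)).comp
    (ha.prodMk (hb.prodMk hc))

theorem continuous_not' {X : Type} [TopologicalSpace X] {a : X → Bool} (ha : Continuous a) :
    Continuous fun x => !(a x) :=
  (continuous_of_discreteTopology (f := fun p : Bool => !p)).comp ha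

/-- exchanges the first letter `0` and `1` -/
def c3 (s : ℕ → Bool) : ℕ → Bool := fun i => if i = 0 then !(s 0) else s i

/-- exchanges the prefixes `10` and `11` -/
def c4 (s : ℕ → Bool) : ℕ → Bool := fun i => if i = 1 then cond (s 0) (!(s 1)) (s 1) else s i

/-- exchanges the prefixes `0` and `10` -/
def c2 (s : ℕ → Bool) : ℕ → Bool := fun i =>
  cond (s 0) (cond (s 1) (s i) (s (i + 1))) (if i = 0 then true else s (i - 1))

theorem c3_invol : Function.Involutive c3 := by
  intro s
  funext i
  unfold c3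
  by_cases h : i = 0 <;> simp [h]

theorem c4_invol : Function.Involutive c4 := by
  intro s
  funext i
  unfold c4
  by_cases h : i = 1
  · subst h
    cases h0 : s 0 <;> cases h1 : s 1 <;> simp [h0, h1]
  · simp [h]

theorem c2_invol : Function.Involutive c2 := by
  intro s
  funext i
  cases h0 : s 0
  · -- s = 0 x
    have e : c2 s = fun i => if i = 0 then true else s (i - 1) := by
      funext j; simp [c2, h0]
    rw [e]
    simp [c2, h0]
  · cases h1 : s 1
    · have e : c2 s = fun i => s (i + 1) := by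
        funext j; simp [c2, h0, h1]
      rw [e]
      by_cases h : i = 0
      · subst h; simp [c2, h0, h1]
      · simp only [c2, zero_add, h1, h, if_false, cond_false]
        congr 1; omega
    · have e : c2 s = s := by
        funext j; simp [c2, h0, h1]
      rw [e, e]

theorem c3_cont : Continuous c3 := by
  refine continuous_pi fun i => ?_
  unfold c3
  by_cases h : i = 0
  · simp only [h, if_true]
    exact continuous_not' (continuous_apply 0)
  · simp only [h, if_false]
    exact continuous_apply i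

theorem c4_cont : Continuous c4 := by
  refine continuous_pi fun i => ?_
  unfold c4
  by_cases h : i = 1
  · simp only [h, if_true]
    exact continuous_cond' (continuous_apply 0) (continuous_not' (continuous_apply 1)) (continuous_apply 1)
  · simp only [h, if_false]
    exact continuous_apply i

theorem c2_cont : Continuous c2 := by
  refine continuous_pi fun i => ?_
  unfold c2
  refine continuous_cond' (continuous_apply 0) (continuous_cond' (continuous_apply 1) (continuous_apply i)
    (continuous_apply (i + 1))) ?_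
  by_cases h : i = 0
  · simp only [h, if_true]
    exact continuous_const
  · simp only [h, if_false]
    exact continuous_apply _

/-- a continuous involution is a homeomorphism -/
def homeoOfInvol (f : (ℕ → Bool) → (ℕ → Bool)) (h : Function.Involutive f) (hc : Continuous f) :
    (ℕ → Bool) ≃ₜ (ℕ → Bool) where
  toEquiv := h.toPerm
  continuous_toFun := hc
  continuous_invFun := hc

/-- The action of the free group on three generators on the Cantor space. -/
def cantorAct : FreeGroup (Fin 3) →* ((ℕ → Bool) ≃ₜ (ℕ → Bool)) :=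
  FreeGroup.lift ![homeoOfInvol c2 c2_invol c2_cont, homeoOfInvol c3 c3_invol c3_cont,
    homeoOfInvol c4 c4_invol c4_cont]

theorem no_invariant [MeasurableSpace (ℕ → Bool)] [BorelSpace (ℕ → Bool)] :
    ¬ ∃ ν : MeasureTheory.Measure (ℕ → Bool), MeasureTheory.IsProbabilityMeasure ν ∧
      ∀ s : FreeGroup (Fin 3), ν.map (cantorAct s) = ν := by
  rintro ⟨ν, hν, hinv⟩
  have e2 : (cantorAct (FreeGroup.of 0) : (ℕ → Bool) → (ℕ → Bool)) = c2 := by
    unfold cantorAct
    rw [FreeGroup.lift_apply_of]; rfl
  have e3 : (cantorAct (FreeGroup.of 1) : (ℕ → Bool) → (ℕ → Bool)) = c3 := by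
    unfold cantorAct
    rw [FreeGroup.lift_apply_of]; rfl
  have e4 : (cantorAct (FreeGroup.of 2) : (ℕ → Bool) → (ℕ → Bool)) = c4 := by
    unfold cantorAct
    rw [FreeGroup.lift_apply_of]; rfl
  have i2 := hinv (FreeGroup.of 0)
  have i3 := hinv (FreeGroup.of 1)
  have i4 := hinv (FreeGroup.of 2)
  rw [e2] at i2
  rw [e3] at i3
  rw [e4] at i4
  let A : Set (ℕ → Bool) := {s | s 0 = false}
  let B : Set (ℕ → Bool) := {s | s 0 = true ∧ s 1 = false}
  let C : Set (ℕ → Bool) := {s | s 0 = true ∧ s 1 = true}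
  have o1 : ∀ (i : ℕ) (b : Bool), IsOpen {s : ℕ → Bool | s i = b} := fun i b =>
    (continuous_apply (A := fun _ : ℕ => Bool) i).isOpen_preimage {x | x = b} (isOpen_discrete _)
  have mA : MeasurableSet A := (o1 0 false).measurableSet
  have mB : MeasurableSet B := ((o1 0 true).inter (o1 1 false)).measurableSet
  have mC : MeasurableSet C := ((o1 0 true).inter (o1 1 true)).measurableSet
  have h2 : ν B = ν A := by
    have : c2 ⁻¹' A = B := by
      ext s
      simp only [A, B, Set.mem_preimage, Set.mem_ofPred_eq, c2]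
      cases h0 : s 0 <;> cases h1 : s 1 <;> simp [h0, h1]
    rw [← this, ← MeasureTheory.Measure.map_apply c2_cont.measurable mA, i2]
  have h4 : ν C = ν B := by
    have : c4 ⁻¹' B = C := by
      ext s
      simp only [B, C, Set.mem_preimage, Set.mem_ofPred_eq, c4]
      cases h0 : s 0 <;> cases h1 : s 1 <;> simp [h0, h1]
    rw [← this, ← MeasureTheory.Measure.map_apply c4_cont.measurable mB, i4]
  have h3 : ν (B ∪ C) = ν A := by
    have : c3 ⁻¹' A = B ∪ C := by
      ext s
      simp only [A, B, C, Set.mem_preimage, Set.mem_ofPred_eq, c3, Set.mem_union]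
      cases h0 : s 0 <;> cases h1 : s 1 <;> simp [h0, h1]
    rw [← this, ← MeasureTheory.Measure.map_apply c3_cont.measurable mA, i3]
  have hdisj : Disjoint B C := by
    rw [Set.disjoint_left]
    rintro s ⟨_, h1⟩ ⟨_, h2⟩
    rw [h1] at h2
    exact absurd h2 (by simp)
  rw [MeasureTheory.measure_union hdisj mC, h4, h2] at h3
  have hA : ν A = 0 := by
    have hfin : ν A ≠ ⊤ := MeasureTheory.measure_ne_top ν A
    have := ENNReal.add_right_inj (a := ν A) (b := ν A) (c := 0) hfin
    rw [add_zero] at this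
    exact this.1 h3
  have huniv : (Set.univ : Set (ℕ → Bool)) = A ∪ (B ∪ C) := by
    ext s
    simp only [A, B, C, Set.mem_univ, true_iff, Set.mem_union, Set.mem_ofPred_eq]
    cases h0 : s 0 <;> cases h1 : s 1 <;> simp [h0, h1]
  have h5 : ν Set.univ ≤ 0 := by
    rw [huniv]
    calc ν (A ∪ (B ∪ C)) ≤ ν A + ν (B ∪ C) := MeasureTheory.measure_union_le _ _
      _ ≤ ν A + (ν B + ν C) := by gcongr; exact MeasureTheory.measure_union_le _ _
      _ = 0 := by rw [h4, h2, hA]; simp
  rw [MeasureTheory.measure_univ] at h5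
  exact absurd h5 (by simp)

end cantor




end Pool.Agent.H34.HilbertGrowth
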